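import Mathlib
import Pool.Agent.Helper635.LLL

set_option autoImplicit false

/-!
# Random Kempe flips: definitions

`V` is a finite vertex set, `Γ` a simple graph on `V`, `c : V → V → ℕ` a symmetric colour
function for its edges, `σ : ℕ → ℕ` an involution on the colours.
-/

namespace Pool.Agent.W842.KF

open Finset

/-- neighbours of `v` -/
noncomputable def nb {V : Type} [Fintype V] (H : SimpleGraph V) (v : V) : Finset V := by
  classical exact univ.filter fun u => H.Adj v u

theorem mem_nb {V : Type} [Fintype V] {H : SimpleGraph V} {v u : V} :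
    u ∈ nb H v ↔ H.Adj v u := by
  classical
  unfold nb
  simp

/-- the ball of radius `s` around `v` -/
noncomputable def bl {V : Type} [Fintype V] (H : SimpleGraph V) (v : V) : ℕ → Finset V
  | 0 => {v}
  | s + 1 => by classical exact bl H v s ∪ (bl H v s).biUnion (nb H)

theorem bl_zero {V : Type} [Fintype V] {H : SimpleGraph V} {v u : V} :
    u ∈ bl H v 0 ↔ u = v := by
  simp [bl]

theorem bl_succ {V : Type} [Fintype V] {H : SimpleGraph V} {v u : V} {s : ℕ} :
    u ∈ bl H v (s + 1) ↔ u ∈ bl H v s ∨ ∃ x ∈ bl H v s, H.Adj x u := by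
  classical
  rw [bl]
  simp [mem_nb]

/-- the connected component of `v` -/
noncomputable def cmp {V : Type} [Fintype V] (H : SimpleGraph V) (v : V) : Finset V := by
  classical exact univ.filter fun u => H.Reachable v u

theorem mem_cmp {V : Type} [Fintype V] {H : SimpleGraph V} {v u : V} :
    u ∈ cmp H v ↔ H.Reachable v u := by
  classical
  unfold cmp
  simp

open Classical in
/-- the paths with `s` edges that start at `v` -/
noncomputable def pths {V : Type} [Fintype V] (H : SimpleGraph V) (v : V) (s : ℕ) :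
    Finset (Fin (s + 1) → V) :=
  univ.filter fun w =>
    w 0 = v ∧ Function.Injective w ∧ ∀ i : Fin s, H.Adj (w i.castSucc) (w i.succ)

theorem mem_pths {V : Type} [Fintype V] {H : SimpleGraph V} {v : V} {s : ℕ}
    {w : Fin (s + 1) → V} :
    w ∈ pths H v s ↔
      w 0 = v ∧ Function.Injective w ∧ ∀ i : Fin s, H.Adj (w i.castSucc) (w i.succ) := by
  classical
  unfold pths
  simp

/-- `c` is a symmetric proper edge colouring of `Γ` -/
def Col {V : Type} (Γ : SimpleGraph V) (c : V → V → ℕ) : Prop :=
  (∀ u v, c u v = c v u) ∧ ∀ u v w, Γ.Adj u v → Γ.Adj u w → v ≠ w → c u v ≠ c u w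

/-- name of the pair of colours `{x, σ x}` -/
def key (σ : ℕ → ℕ) (x : ℕ) : ℕ := min x (σ x)

/-- the subgraph of the edges whose colour lies in the pair named `P` -/
def cls {V : Type} (Γ : SimpleGraph V) (c : V → V → ℕ) (σ : ℕ → ℕ) (P : ℕ) : SimpleGraph V where
  Adj u v := Γ.Adj u v ∧ key σ (c u v) = P ∧ key σ (c v u) = P
  symm := by
    constructor
    rintro u v ⟨h1, h2, h3⟩
    exact ⟨h1.symm, h3, h2⟩
  loopless := ⟨fun u h => Γ.loopless.irrefl u h.1⟩

/-- `x` lies in one of the `2 ^ m` blocks of length `b` that start at `o` -/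
def inT (o b m x : ℕ) : Prop := o ≤ x ∧ x < o + 2 ^ m * b

/-- number of the block of `x` -/
def bk (o b x : ℕ) : ℕ := (x - o) / b

open Classical in
/-- flip the binary digit number `j` of the block number -/
noncomputable def sg (o b m j x : ℕ) : ℕ :=
  if inT o b m x then o + (bk o b x ^^^ 2 ^ j) * b + (x - o) % b else x

theorem sg_in {o b m j x : ℕ} (h : inT o b m x) :
    sg o b m j x = o + (bk o b x ^^^ 2 ^ j) * b + (x - o) % b := by
  classical
  unfold sg
  rw [if_pos h]

theorem sg_out {o b m j x : ℕ} (h : ¬ inT o b m x) : sg o b m j x = x := by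
  classical
  unfold sg
  rw [if_neg h]

open Classical in
/-- the tests `i` of the dart `(v, u)` that are alive at level `j` for the colour `x`: the blocks
of `x` and of `y i v u` have the same first `j` binary digits -/
noncomputable def alv (o b m j : ℕ) {q : ℕ} {V : Type} (y : Fin q → V → V → ℕ) (x : ℕ)
    (v u : V) : Finset (Fin q) :=
  univ.filter fun i =>
    inT o b m x ∧ inT o b m (y i v u) ∧ bk o b x % 2 ^ j = bk o b (y i v u) % 2 ^ j

theorem mem_alv {o b m j : ℕ} {q : ℕ} {V : Type} {y : Fin q → V → V → ℕ} {x : ℕ} {v u : V}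
    {i : Fin q} : i ∈ alv o b m j y x v u ↔
      inT o b m x ∧ inT o b m (y i v u) ∧ bk o b x % 2 ^ j = bk o b (y i v u) % 2 ^ j := by
  classical
  unfold alv
  simp

end Pool.Agent.W842.KF
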