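import Mathlib
import Pool.Agent.W842.KF.Defs
import Pool.Agent.H238R2.HY.Struct

set_option autoImplicit false

/-!
# Random Kempe flips: the statements of the parts
-/

namespace Pool.Agent.W842.KF

open Finset Pool.Agent.Helper635.LLL

/-- balls are small in graphs of maximum degree two -/
def S_BALL : Prop :=
  ∀ (V : Type) [Fintype V] (H : SimpleGraph V), (∀ u, (nb H u).card ≤ 2) →
    ∀ (v : V) (s : ℕ), (bl H v s).card ≤ 2 * s + 1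

/-- balls that meet have close centres -/
def S_BMEET : Prop :=
  ∀ (V : Type) [Fintype V] (H : SimpleGraph V) (v w x : V) (s : ℕ),
    x ∈ bl H v s → x ∈ bl H w s → w ∈ bl H v (2 * s)

/-- without paths of length `s` from `v` the component of `v` is inside the ball -/
def S_GROW : Prop :=
  ∀ (V : Type) [Fintype V] (H : SimpleGraph V) (v : V) (s : ℕ),
    (pths H v s = ∅ → cmp H v ⊆ bl H v s) ∧ ∀ w ∈ pths H v s, ∀ i, w i ∈ bl H v s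

/-- few paths in graphs of maximum degree two -/
def S_PATHS : Prop :=
  ∀ (V : Type) [Fintype V] (H : SimpleGraph V), (∀ u, (nb H u).card ≤ 2) →
    ∀ (v : V) (s : ℕ), (pths H v s).card ≤ 2

/-- the class graphs have maximum degree two -/
def S_CLS : Prop :=
  ∀ (V : Type) [Fintype V] (Γ : SimpleGraph V) (c : V → V → ℕ) (σ : ℕ → ℕ),
    Col Γ c → (∀ x, σ (σ x) = x) → ∀ (P : ℕ) (v : V), (nb (cls Γ c σ P) v).card ≤ 2

open Classical in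
/-- no marks on a given set -/
def S_MARK1 : Prop :=
  ∀ (T : Type) [Fintype T] (N : ℕ), 1 ≤ N → ∀ Z : Finset T,
    (cnt (fun m : T → Fin N => ∀ z ∈ Z, (m z : ℕ) ≠ 0) : ℝ) ≤
      (1 - 1 / (N : ℝ)) ^ Z.card * Fintype.card (T → Fin N)

open Classical in
/-- many marks on a given set -/
def S_MARK2 : Prop :=
  ∀ (T : Type) [Fintype T] (N : ℕ), 1 ≤ N → ∀ (Z : Finset T) (t : ℕ),
    (cnt (fun m : T → Fin N => t ≤ (Z.filter fun z => (m z : ℕ) = 0).card) : ℝ) ≤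
      ((Z.card : ℝ) / N) ^ t * Fintype.card (T → Fin N)

/-- cutting the Kempe chains into short pieces -/
def S_CUT : Prop :=
  ∀ (V : Type) [Fintype V] (Γ : SimpleGraph V) (c : V → V → ℕ) (σ : ℕ → ℕ) (K : ℕ),
    64 ≤ K → Col Γ c → (∀ x, σ (σ x) = x) → (∀ v, (nb Γ v).card ≤ K) →
    (∀ u v, Γ.Adj u v → key σ (c u v) < K) →
    ∃ M : SimpleGraph V, M ≤ Γ ∧ (∀ v, (nb M v).card ≤ 15) ∧
      ∀ (P : ℕ) (v : V), (cmp (cls (Γ \ M) c σ P) v).card ≤ 3 * K ^ 3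

/-- flipping Kempe chains keeps a proper colouring -/
def S_KEMPE : Prop :=
  ∀ (V : Type) (Γ : SimpleGraph V) (c : V → V → ℕ) (σ : ℕ → ℕ) (b : V → V → Bool),
    Col Γ c → (∀ x, σ (σ x) = x) → (∀ u v, b u v = b v u) →
    (∀ u v w, Γ.Adj u v → Γ.Adj u w → key σ (c u v) = key σ (c u w) → b u v = b u w) →
    Col Γ (fun u v => if b u v then σ (c u v) else c u v)

open Classical in
/-- Hoeffding bound for independent bits, counting form -/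
def S_HOEF : Prop :=
  ∀ (T : Type) [Fintype T] (K : ℕ) (e : Fin K → T), Function.Injective e →
    ∀ (f : Fin K → Bool → ℕ) (Q : ℕ) (φ Λ : ℝ), 0 < φ → 0 < Λ →
    (∀ P, f P false + f P true ≤ Q) → ∑ P, ((f P false : ℝ) + f P true) ≤ φ →
    (cnt (fun ω : T → Bool => φ / 2 + √(Q * φ * Λ / 2) < ∑ P, (f P (ω (e P)) : ℝ)) : ℝ) ≤
      Real.exp (-Λ) * Fintype.card (T → Bool)

/-- random flips of short Kempe chains -/
def S_FLIP : Prop :=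
  ∀ (V : Type) [Fintype V] (Γ : SimpleGraph V) (c : V → V → ℕ) (σ : ℕ → ℕ) (K L q : ℕ)
    (φ Λ : ℝ) (a : V → V → Bool → ℕ),
    Col Γ c → (∀ x, σ (σ x) = x) → (∀ u v, Γ.Adj u v → key σ (c u v) < K) →
    (∀ (P : ℕ) (v : V), (cmp (cls Γ c σ P) v).card ≤ L) →
    (∀ v u, a v u false + a v u true ≤ q) →
    (∀ v, ∑ u ∈ nb Γ v, ((a v u false : ℝ) + a v u true) ≤ φ) →
    0 < φ → 0 < Λ → 1 ≤ K → 1 ≤ L → 4 * Real.exp (-Λ) * (K * L : ℕ) ≤ 1 →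
    ∃ b : V → V → Bool, (∀ u v, b u v = b v u) ∧
      (∀ u v w, Γ.Adj u v → Γ.Adj u w → key σ (c u v) = key σ (c u w) → b u v = b u w) ∧
      ∀ v, ∑ u ∈ nb Γ v, (a v u (b v u) : ℝ) ≤ φ / 2 + √(q * φ * Λ)

/-- one level: cut and flip -/
def S_LEVEL : Prop :=
  ∀ (V : Type) [Fintype V] (Γ : SimpleGraph V) (c : V → V → ℕ) (σ : ℕ → ℕ) (K q : ℕ)
    (φ : ℝ) (a : V → V → Bool → ℕ),
    64 ≤ K → Col Γ c → (∀ x, σ (σ x) = x) → (∀ v, (nb Γ v).card ≤ K) →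
    (∀ u v, Γ.Adj u v → c u v < K) → 0 < φ →
    (∀ v u, a v u false + a v u true ≤ q) →
    (∀ v, ∑ u ∈ nb Γ v, ((a v u false : ℝ) + a v u true) ≤ φ) →
    ∃ (M : SimpleGraph V) (b : V → V → Bool), M ≤ Γ ∧ (∀ v, (nb M v).card ≤ 15) ∧
      Col (Γ \ M) (fun u v => if b u v then σ (c u v) else c u v) ∧
      ∀ v, ∑ u ∈ nb (Γ \ M) v, (a v u (b v u) : ℝ) ≤ φ / 2 + √(q * φ * (5 * Real.log K))

/-- the pairings `sg o b m j` -/
def S_SG : Prop :=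
  (∀ o b m j : ℕ, 1 ≤ b → j < m → ∀ x : ℕ,
    sg o b m j (sg o b m j x) = x ∧ (inT o b m x → inT o b m (sg o b m j x)) ∧
    (inT o b m x → bk o b (sg o b m j x) = bk o b x ^^^ 2 ^ j)) ∧
  ∀ α β j : ℕ,
    ((if α % 2 ^ (j + 1) = β % 2 ^ (j + 1) then 1 else 0) +
      (if (α ^^^ 2 ^ j) % 2 ^ (j + 1) = β % 2 ^ (j + 1) then 1 else 0) : ℕ) =
      if α % 2 ^ j = β % 2 ^ j then 1 else 0

/-- the recurrence -/
def S_REC : Prop :=
  ∀ (A t : ℝ) (g : ℕ → ℝ), 0 ≤ A → 0 ≤ t → g 0 = √A → (∀ j, g (j + 1) = g j / √2 + t) →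
    ∀ m : ℕ, 0 ≤ g m ∧ (g m) ^ 2 ≤ 2 * A / 2 ^ m + 24 * t ^ 2

/-- one phase: all binary digits of the block number are randomised -/
def S_PHASE : Prop :=
  ∀ (V : Type) [Fintype V] (Γ : SimpleGraph V) (c : V → V → ℕ) (K q o b m : ℕ)
    (y : Fin q → V → V → ℕ),
    64 ≤ K → 1 ≤ q → 1 ≤ b → o + 2 ^ m * b ≤ K → Col Γ c → (∀ v, (nb Γ v).card ≤ K) →
    (∀ u v, Γ.Adj u v → c u v < K) →
    ∃ (R : SimpleGraph V) (c' : V → V → ℕ), R ≤ Γ ∧ (∀ v, (nb R v).card ≤ 15 * m) ∧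
      Col (Γ \ R) c' ∧ (∀ u v, (Γ \ R).Adj u v → c' u v < K) ∧
      (∀ u v, (Γ \ R).Adj u v → ¬ inT o b m (c u v) → c' u v = c u v) ∧
      (∀ u v, (Γ \ R).Adj u v → inT o b m (c u v) → inT o b m (c' u v)) ∧
      ∀ v, ∑ u ∈ nb (Γ \ R) v, ((alv o b m m y (c' v u) v u).card : ℝ) ≤
        2 * (q * K) / 2 ^ m + 60 * q * Real.log K

/-- almost every edge gets a colour in an interval that contains none of its test colours -/
def S_EDGE : Prop :=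
  ∀ (V : Type) [Fintype V] (Γ : SimpleGraph V) (c : V → V → ℕ) (K q d : ℕ)
    (y : Fin q → V → V → ℕ),
    64 ≤ K → 1 ≤ q → 1 ≤ d → d ≤ K → Col Γ c → (∀ v, (nb Γ v).card ≤ K) →
    (∀ u v, Γ.Adj u v → c u v < K) →
    ∃ (R : SimpleGraph V) (c' : V → V → ℕ), R ≤ Γ ∧
      (∀ v, ((nb R v).card : ℝ) ≤ 44 * Real.log K) ∧
      Col (Γ \ R) c' ∧ (∀ u v, (Γ \ R).Adj u v → c' u v < K) ∧
      ∀ v, ∃ B : Finset V, (B.card : ℝ) ≤ 8 * q * d + 120 * q * Real.log K ∧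
        ∀ u ∈ nb (Γ \ R) v, u ∉ B →
          ∃ α b : ℕ, d ≤ b ∧ α ≤ c' v u ∧ c' v u < α + b ∧
            ∀ i, ¬ (α ≤ y i v u ∧ y i v u < α + b)

/-- labellings from the edge colouring -/
def S_LAB : Prop :=
  ∀ (V : Type) [Fintype V] (G : SimpleGraph V) [DecidableRel G.Adj] (p : ℕ), 1 ≤ p →
    64 ≤ G.maxDegree + 1 → 2 * p - 1 ≤ G.maxDegree + 1 →
    ∃ N : ℕ, (N : ℝ) ≤ G.maxDegree + 66 * p + 524 * Real.log (G.maxDegree + 1) ∧
      Pool.Agent.H238R2.HY.CircLab G p N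

end Pool.Agent.W842.KF
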